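import Pool.Agent.H19.Kir.Full

set_option autoImplicit false

/-!
# The hyperkahler Kirwan map misses arbitrarily many classes in degree zero

All definitions (singular cohomology `Coh`, the Borel construction `Borel`, the moment maps `muR`,
`muC`, `IsCentral`, `level`, the Kirwan map `kirwan`) are those of the library module
`MP_8779dd_gt.KirwanDegreeZero`; new is only `classOf`, the class in `H^0` of a locally constant
function.

For every `N ≥ 1` there is a compact connected group `G` acting linearly and unitarily, and freely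
on a nonempty level set of the hyperkahler moment map at a central value, such that the hyperkahler
quotient consists of exactly `2^N` points, distinguished by a continuous map to a discrete set; the
functions on these points give all classes of `H^0` of the Borel construction, each once, and only
the constants give classes in the image of the Kirwan map: the image is a line in a space of
dimension `2^N`. The library has an example whose level set has (at least) two components.
Here it is shown that these two are single orbits; the group is the product of `N` copies of that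
group, and its level set is the product of `N` copies of that level set.
-/

namespace Pool.Agent.Results.MP_8779dd_gt.ManyComponents

open Pool.Agent.Results.MP_8779dd_gt.KirwanDegreeZero

noncomputable section

/-- The degree zero cochain of a locally constant function is a cocycle. -/
theorem loc_cocycle {X : Type} [TopologicalSpace X] (h : X → ℚ) (hh : IsLocallyConstant h) :
    IsCocycle (X := X) (n := 0) fun σ =>
      h ((show C(stdSimplex ℝ (Fin 1), X) from σ) default) :=
  Pool.Agent.H19.Kir.loc_cocycle h hh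

/-- The class in `H^0(X; ℚ)` of a locally constant function on `X`. -/
def classOf {X : Type} [TopologicalSpace X] (h : X → ℚ) (hh : IsLocallyConstant h) : Coh X 0 :=
  Quot.mk _ ⟨fun σ => h ((show C(stdSimplex ℝ (Fin 1), X) from σ) default), loc_cocycle h hh⟩

theorem loc {X D : Type} [TopologicalSpace X] [TopologicalSpace D] [DiscreteTopology D]
    (f : C(X, D)) (φ : D → ℚ) : IsLocallyConstant (φ ∘ f) :=
  (IsLocallyConstant.of_discrete φ).comp_continuous f.continuous

/-- For every `N ≥ 1` there are a compact connected group `G` of unitary matrices and a central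
value `ξ` such that `G` acts freely on the nonempty level set of the hyperkahler moment map, with
the following properties. There is a continuous map `s` of the level set onto the discrete set of
the `2^N` sign vectors whose fibres are exactly the orbits of `G`: the hyperkahler quotient consists
of `2^N` points. It comes from a continuous map `f` on the Borel construction, and `φ ↦ [φ ∘ f]` is
a bijection from the functions on the sign vectors onto `H^0` of the Borel construction; the class
`[φ ∘ f]` is in the image of the Kirwan map if and only if `φ` is constant. In particular the Kirwan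
map is not surjective in degree zero. -/
theorem result (N : ℕ) (hN : 1 ≤ N) : ∃ (ι : Type) (_ : Fintype ι) (_ : DecidableEq ι)
    (G : Subgroup (Matrix.unitaryGroup ι ℂ)) (ξ : Matrix ι ι ℂ → ℝ × ℂ),
    IsCompact (G : Set (Matrix.unitaryGroup ι ℂ)) ∧
    IsConnected (G : Set (Matrix.unitaryGroup ι ℂ)) ∧
    IsCentral G ξ ∧
    (level G ξ).Nonempty ∧
    (∀ p ∈ level G ξ, ∀ g ∈ G, actA g p = p → g = 1) ∧
    ¬ Function.Surjective (kirwan G ξ 0) ∧
    ∃ s : level G ξ → (Fin N → Bool), Continuous s ∧ Function.Surjective s ∧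
      (∀ p q : level G ξ, s q = s p ↔ ∃ g ∈ G, (q : TA ι) = actA g p) ∧
      ∃ f : C(Borel G (level G ξ), Fin N → Bool),
        (∀ (e : EU ι) (p : level G ξ), f (Quot.mk _ (e, p)) = s p) ∧
        Function.Bijective (fun φ : (Fin N → Bool) → ℚ => classOf (φ ∘ f) (loc f φ)) ∧
        ∀ φ : (Fin N → Bool) → ℚ, classOf (φ ∘ f) (loc f φ) ∈ Set.range (kirwan G ξ 0) ↔
          ∃ a : ℚ, ∀ d, φ d = a := by
  obtain ⟨e₀⟩ := Pool.Agent.H19.Kir.EU_ne (ι := Pool.Agent.H19.Kir.I N)
  let f : C(Borel (Pool.Agent.H19.Kir.GN N) (level (Pool.Agent.H19.Kir.GN N)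
      (Pool.Agent.H19.Kir.xiN N)), Fin N → Bool) :=
    ⟨Quot.lift (fun p => Pool.Agent.H19.Kir.sgn p.2) (by
      rintro p q ⟨g, hg, -, h2⟩
      exact (Pool.Agent.H19.Kir.sgn_inv p.2 q.2 g hg h2).symm),
      continuous_quot_lift _ (Pool.Agent.H19.Kir.sgn_continuous.comp continuous_snd)⟩
  have hf : ∀ (e : EU (Pool.Agent.H19.Kir.I N)) (p : level (Pool.Agent.H19.Kir.GN N)
      (Pool.Agent.H19.Kir.xiN N)), f (Quot.mk _ (e, p)) = Pool.Agent.H19.Kir.sgn p :=
    fun _ _ => rfl
  have hiff : ∀ φ : (Fin N → Bool) → ℚ, classOf (φ ∘ f) (loc f φ) ∈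
      Set.range (kirwan (Pool.Agent.H19.Kir.GN N) (Pool.Agent.H19.Kir.xiN N) 0) ↔
        ∃ a : ℚ, ∀ d, φ d = a := by
    intro φ
    constructor
    · intro h
      refine ⟨φ fun _ => false, fun d => ?_⟩
      obtain ⟨x, hx⟩ := Pool.Agent.H19.Kir.sgn_surjective d
      obtain ⟨y, hy⟩ := Pool.Agent.H19.Kir.sgn_surjective (fun _ : Fin N => false)
      have h1 := Pool.Agent.H19.Kir.eq_of_mem_range (Pool.Agent.H19.Kir.GN N) _ (φ ∘ f) (loc f φ)
        h x.1 y.1 x.2 y.2 e₀
      have h2 : φ (Pool.Agent.H19.Kir.sgn x) = φ (Pool.Agent.H19.Kir.sgn y) := h1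
      rw [hx, hy] at h2
      exact h2
    · rintro ⟨a, ha⟩
      obtain rfl : φ = fun _ => a := funext ha
      exact Pool.Agent.H19.Kir.const_mem_range _ _ a (IsLocallyConstant.const a)
  refine ⟨Pool.Agent.H19.Kir.I N, inferInstance, inferInstance, Pool.Agent.H19.Kir.GN N,
    Pool.Agent.H19.Kir.xiN N, Pool.Agent.H19.Kir.GN_compact, Pool.Agent.H19.Kir.GN_connected,
    Pool.Agent.H19.Kir.xiN_central, ?_, fun p hp g hg h => Pool.Agent.H19.Kir.free hp hg h, ?_,
    Pool.Agent.H19.Kir.sgn, Pool.Agent.H19.Kir.sgn_continuous, Pool.Agent.H19.Kir.sgn_surjective,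
    fun p q => Pool.Agent.H19.Kir.sgn_eq_iff p q, f, hf, ⟨?_, ?_⟩, hiff⟩
  · obtain ⟨x, -⟩ := Pool.Agent.H19.Kir.sgn_surjective (fun _ : Fin N => false)
    exact ⟨x.1, x.2⟩
  · intro hs
    obtain ⟨a, ha⟩ := (hiff fun d => if d ⟨0, hN⟩ then 1 else 0).1 (hs _)
    have h1 := ha fun _ => true
    have h2 := ha fun _ => false
    simp at h1 h2
    rw [← h1] at h2
    exact zero_ne_one h2
  · intro φ ψ h
    let ev : Coh (Borel (Pool.Agent.H19.Kir.GN N) (level (Pool.Agent.H19.Kir.GN N)
        (Pool.Agent.H19.Kir.xiN N))) 0 → (Simplex (Borel (Pool.Agent.H19.Kir.GN N)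
        (level (Pool.Agent.H19.Kir.GN N) (Pool.Agent.H19.Kir.xiN N))) 0 → ℚ) :=
      Quot.lift (fun c => c.1) fun _ _ h => h
    funext d
    obtain ⟨x, hx⟩ := Pool.Agent.H19.Kir.sgn_surjective d
    have h1 := congrFun (congrArg ev h) (ContinuousMap.const _ (Quot.mk _ (e₀, x)))
    have h2 : φ (Pool.Agent.H19.Kir.sgn x) = ψ (Pool.Agent.H19.Kir.sgn x) := h1
    rw [hx] at h2
    exact h2
  · intro w
    obtain ⟨b, rfl⟩ := Quot.exists_rep w
    let x : (Fin N → Bool) → level (Pool.Agent.H19.Kir.GN N) (Pool.Agent.H19.Kir.xiN N) :=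
      Function.surjInv Pool.Agent.H19.Kir.sgn_surjective
    have hx : ∀ d, Pool.Agent.H19.Kir.sgn (x d) = d :=
      Function.surjInv_eq Pool.Agent.H19.Kir.sgn_surjective
    refine ⟨fun d => b.1 (ContinuousMap.const _ (Quot.mk _ (e₀, x d))), ?_⟩
    refine congrArg (Quot.mk _) (Subtype.ext (funext fun σ => ?_))
    let σ' : C(stdSimplex ℝ (Fin 1), Borel (Pool.Agent.H19.Kir.GN N)
      (level (Pool.Agent.H19.Kir.GN N) (Pool.Agent.H19.Kir.xiN N))) := σ
    obtain ⟨⟨e, q⟩, hq⟩ := Quot.exists_rep (σ' default)
    have h1 : σ' = ContinuousMap.const _ (Quot.mk _ (e, q)) := by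
      apply ContinuousMap.ext
      intro t
      rw [Subsingleton.elim t default, ← hq]
      rfl
    show b.1 (ContinuousMap.const _ (Quot.mk _ (e₀, x (f (σ' default))))) = b.1 σ'
    rw [h1]
    exact (Pool.Agent.H19.Kir.cocycle_of_orbits (Pool.Agent.H19.Kir.GN N) _
      Pool.Agent.H19.Kir.sgn (fun p q h => (Pool.Agent.H19.Kir.sgn_eq_iff p q).1 h) b.2 e e₀
      (x (Pool.Agent.H19.Kir.sgn q)) q (hx _).symm).symm

end

end Pool.Agent.Results.MP_8779dd_gt.ManyComponents
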